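import Pool.Agent.TH782.VMad.FTwo

set_option autoImplicit false

/-!
# Analytic mad families of vector subspaces: the complete answer

Let `F` be a countable field and let `E` be the space of finitely supported sequences over `F`.

`IsAD 𝒜`: the members of `𝒜` are infinite-dimensional subspaces of `E`, and any two different
members have a finite-dimensional intersection.
`IsMad 𝒜`: `𝒜` is such a family and no such family properly contains it.
`chars 𝒜`: the set of characteristic functions of the members of `𝒜`.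

An infinite mad family that is analytic in `2 ^ E` exists if and only if `F` has more than two
elements, and then there is even an uncountable one that is Borel.
-/

open MeasureTheory Pool.Agent.TH782.VMad

namespace Pool.Agent.Results.MP_5897b0_lc.AnalyticMadSubspaces

theorem result (F : Type) [Field F] [Countable F] :
    ((∃ 𝒜 : Set (Submodule F (ℕ →₀ F)), IsMad 𝒜 ∧ 𝒜.Infinite ∧ AnalyticSet (chars 𝒜)) ↔
      ∃ α : F, α ≠ 0 ∧ α ≠ 1) ∧
    ((∃ α : F, α ≠ 0 ∧ α ≠ 1) →
      ∃ 𝒜 : Set (Submodule F (ℕ →₀ F)), IsMad 𝒜 ∧ ¬ 𝒜.Countable ∧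
        MeasurableSet[borel ((ℕ →₀ F) → Bool)] (chars 𝒜)) := by
  refine ⟨⟨?_, ?_⟩, ?_⟩
  · rintro ⟨𝒜, hm, hi, ha⟩
    by_contra hno
    push Not at hno
    refine no_mad_two (fun α => ?_) hm hi ha
    by_cases h : α = 0
    · exact Or.inl h
    · exact Or.inr (hno α h)
  · rintro ⟨α, h0, h1⟩
    obtain ⟨𝒜, hm, hc, _, ha⟩ := main h0 h1
    exact ⟨𝒜, hm, fun h => hc h.countable, ha⟩
  · rintro ⟨α, h0, h1⟩
    obtain ⟨𝒜, hm, hc, hb, _⟩ := main h0 h1
    exact ⟨𝒜, hm, hc, hb⟩

end Pool.Agent.Results.MP_5897b0_lc.AnalyticMadSubspaces
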